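import Pool.Agent.Helper61.QT.GoalsH
import Pool.Agent.Helper23.QS.HOL

/-!
# Project QT (MP_0ebdb3_gt), packet HOL2: the output of the ODE part
-/

set_option autoImplicit false

open Set
open Pool.Agent.Helper61
open Pool.Agent.Helper61.QS (V En tr rk R4 IsTrans G_OD1 G_OD2 G_OD3)
open Pool.Agent.Helper61.QT
open Pool.Agent.Helper23.QS (uniq intertw derR derT)

namespace Pool.Agent.Helper64.QT

/-- The packet `HOL2`. -/
theorem goalHOL2 (h1 : G_OD1) (h2 : G_OD2) (h3 : G_OD3) (h5 : G_OD5) (hC : G_COM2) :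
    G_HOL2 := by
  intro a b n ε p q D
  have cb : Continuous p := D.smp.continuous
  have cc : Continuous q := D.smq.continuous
  have exR : ∀ z : ℝ × ℝ × ℝ, ∃ U : ℝ → En n, U 0 = 1 ∧
      ∀ t, HasDerivAt U (p (t, z) * U t) t := fun z =>
    h1 n (fun t => p (t, z)) (cb.comp (by fun_prop))
  have exT : ∀ z : ℝ × ℝ × ℝ, ∃ U : ℝ → En n, U 0 = 1 ∧
      ∀ t, HasDerivAt U (q (z.1, t, z.2) * U t) t := fun z =>
    h1 n (fun t => q (z.1, t, z.2)) (cc.comp (by fun_prop))
  choose UR hUR0 hURd using exR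
  choose UT hUT0 hUTd using exT
  have keyR : ∀ z z' : ℝ × ℝ × ℝ, (∀ t, p (t, z) = p (t, z')) → ∀ t, UR z t = UR z' t := by
    intro z z' h t
    refine uniq h2 (cc := fun t => p (t, z')) (fun t => D.skp _) (hUR0 z') (hUR0 z) (hURd z')
      (fun t => ?_) t
    have h5 := hURd z t
    rw [h t] at h5
    exact h5
  have keyT : ∀ z z' : ℝ × ℝ × ℝ, (∀ t, q (z.1, t, z.2) = q (z'.1, t, z'.2)) →
      ∀ t, UT z t = UT z' t := by
    intro z z' h t
    refine uniq h2 (cc := fun t => q (z'.1, t, z'.2)) (fun t => D.skq _) (hUT0 z') (hUT0 z)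
      (hUTd z') (fun t => ?_) t
    have h5 := hUTd z t
    rw [h t] at h5
    exact h5
  have contR : Continuous fun z : (ℝ × ℝ × ℝ) × ℝ => UR z.1 z.2 :=
    h3 (ℝ × ℝ × ℝ) n (fun z => p (z.2, z.1)) (cb.comp (by fun_prop)) (fun z => D.skp _) UR hUR0
      (fun l t => hURd l t)
  have contT : Continuous fun z : (ℝ × ℝ × ℝ) × ℝ => UT z.1 z.2 :=
    h3 (ℝ × ℝ × ℝ) n (fun z => q (z.1.1, z.2, z.1.2)) (cc.comp (by fun_prop))
      (fun z => D.skq _) UT hUT0 (fun l t => hUTd l t)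
  have tr : IsTrans p q (fun x => UR x.2 x.1) (fun x => UT (x.1, x.2.2) x.2.1) :=
    { R0 := fun θ α β => hUR0 _
      T0 := fun r α β => hUT0 _
      dR := fun r θ α β => hURd (θ, α, β) r
      dT := fun r θ α β => hUTd (r, α, β) θ }
  refine ⟨fun x => UR x.2 x.1, fun x => UT (x.1, x.2.2) x.2.1, ?_⟩
  refine
    { cε := D.smε.continuous
      cR := contR.comp (g := fun z : (ℝ × ℝ × ℝ) × ℝ => UR z.1 z.2)
        (f := fun x : R4 => (x.2, x.1)) (by fun_prop)
      cT := contT.comp (g := fun z : (ℝ × ℝ × ℝ) × ℝ => UT z.1 z.2)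
        (f := fun x : R4 => ((x.1, x.2.2), x.2.1)) (by fun_prop)
      idem := D.idem
      symm := D.symm
      uR := fun x => (h2 n (fun t => p (t, x.2)) (UR x.2) (fun t => D.skp _) (hUR0 _)
        (hURd x.2)).1 x.1
      uT := fun x => (h2 n (fun t => q (x.1, t, x.2.2)) (UT (x.1, x.2.2)) (fun t => D.skq _)
        (hUT0 _) (hUTd (x.1, x.2.2))).1 x.2.1
      R0 := tr.R0
      T0 := tr.T0
      iR := ?_
      iT := ?_
      perα := ?_
      perβ := ?_
      r0 := ?_
      r1 := ?_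
      s0 := ?_
      s1 := ?_
      smg := ?_
      sml := ?_
      smf := ?_
      smv := ?_
      comm := ?_ }
  · intro r s α β
    refine intertw h2 (cc := fun t => p (t, s, α, β)) (U := UR (s, α, β))
      (e := fun t => ε (t, s, α, β)) (fun t => D.skp _) (hUR0 _) (hURd _) (fun t => ?_) r
    have h5 := derR D.smε (s, α, β) t
    rw [D.dr] at h5
    exact h5
  · intro r s α β
    refine intertw h2 (cc := fun t => q (r, t, α, β)) (U := UT (r, α, β))
      (e := fun t => ε (r, t, α, β)) (fun t => D.skq _) (hUT0 _) (hUTd _) (fun t => ?_) s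
    have h5 := derT D.smε r (α, β) t
    rw [D.ds] at h5
    exact h5
  · intro r s α β
    exact ⟨(D.perα r s α β).1, keyR (s, α + 2 * Real.pi, β) (s, α, β)
      (fun t => (D.perα t s α β).2.1) r, keyT (r, α + 2 * Real.pi, β) (r, α, β)
      (fun t => (D.perα r t α β).2.2) s⟩
  · intro r s α β
    exact ⟨(D.perβ r s α β).1, keyR (s, α, β + 2 * Real.pi) (s, α, β)
      (fun t => (D.perβ t s α β).2.1) r, keyT (r, α, β + 2 * Real.pi) (r, α, β)
      (fun t => (D.perβ r t α β).2.2) s⟩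
  · intro s α β
    exact ⟨(D.r0 s α β).1, keyT (0, α, β) (0, 0, β) (fun t => (D.r0 t α β).2) s⟩
  · intro s α β
    exact ⟨(D.r1 s α β).1, keyT (Real.pi / 2, α, β) (Real.pi / 2, 0, β + a * α)
      (fun t => (D.r1 t α β).2) s⟩
  · intro r α β
    exact ⟨(D.s0 r α β).1, keyR (0, α, β) (0, α, 0) (fun t => (D.s0 t α β).2) r⟩
  · intro r α β
    exact ⟨(D.s1 r α β).1, keyR (Real.pi / 2, α, β) (Real.pi / 2, α + b * β, 0)
      (fun t => (D.s1 t α β).2) r⟩
  · exact h5 n (fun z => p (z.2, 0, z.1, 0)) (D.smp.comp (by fun_prop)) (fun z => D.skp _)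
      (fun l => UR (0, l, 0)) (fun l => hUR0 _) (fun l t => hURd (0, l, 0) t) (Real.pi / 2)
  · exact h5 n (fun z => p (z.2, Real.pi / 2, z.1, 0)) (D.smp.comp (by fun_prop))
      (fun z => D.skp _) (fun l => UR (Real.pi / 2, l, 0)) (fun l => hUR0 _)
      (fun l t => hURd (Real.pi / 2, l, 0) t) (Real.pi / 2)
  · exact h5 n (fun z => q (0, z.2, 0, z.1)) (D.smq.comp (by fun_prop)) (fun z => D.skq _)
      (fun l => UT (0, 0, l)) (fun l => hUT0 _) (fun l t => hUTd (0, 0, l) t) (Real.pi / 2)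
  · exact h5 n (fun z => q (Real.pi / 2, z.2, 0, z.1)) (D.smq.comp (by fun_prop))
      (fun z => D.skq _) (fun l => UT (Real.pi / 2, 0, l)) (fun l => hUT0 _)
      (fun l t => hUTd (Real.pi / 2, 0, l) t) (Real.pi / 2)
  · intro r s α β
    have h5 := hC a b n ε p q _ _ D tr r s α β
    have h6 : ε (0, 0, α, β) = ε (0, 0, 0, 0) :=
      ((D.r0 0 α β).1).trans ((D.s0 0 0 β).1)
    rw [h6] at h5
    exact h5

end Pool.Agent.Helper64.QT
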